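import Mathlib

namespace Pool.Agent.Work.MP_56aac4_co

/-- `S` is an `n`-tuple `T`-coloring of `G` for `T = {0, 1, ..., r}`: every vertex gets a set of
exactly `n` positive integers, and for adjacent vertices no difference lies in `T`. -/
def IsTColoring (r n : ℕ) {V : Type} (G : SimpleGraph V) (S : V → Finset ℕ) : Prop :=
  (∀ v, (S v).card = n) ∧ (∀ v, ∀ a ∈ S v, 0 < a) ∧
  ∀ u v, G.Adj u v → ∀ a ∈ S u, ∀ b ∈ S v, ((a : ℤ) - (b : ℤ)).natAbs ∉ Finset.range (r + 1)

/-- the largest integer used by `S` minus the smallest integer used by `S` -/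
noncomputable def span {V : Type} (S : V → Finset ℕ) : ℕ :=
  sSup {a | ∃ v, a ∈ S v} - sInf {a | ∃ v, a ∈ S v}

/-- the minimum span of an `n`-tuple `T`-coloring of `G`, `T = {0, 1, ..., r}` -/
noncomputable def sp (r n : ℕ) {V : Type} (G : SimpleGraph V) : ℕ :=
  sInf {s | ∃ S : V → Finset ℕ, IsTColoring r n G S ∧ span S = s}

end Pool.Agent.Work.MP_56aac4_co
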