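import Mathlib
import Pool.Agent.Work.MP_56aac4_co.Defs

namespace Pool.Agent.Work.MP_56aac4_co

open Finset
open scoped Pointwise

/-- size of a fattened set -/
lemma card_fat (r : ℕ) (A : Finset ℕ) (hA : A.Nonempty) :
    A.card + r ≤ (A + Finset.range (r + 1)).card := by
  have h := cauchy_davenport_add_of_linearOrder_isCancelAdd hA
    (t := Finset.range (r + 1)) (Finset.nonempty_range_iff.mpr (Nat.succ_ne_zero r))
  rw [Finset.card_range] at h
  omega

lemma mem_fat {r : ℕ} {A : Finset ℕ} {x : ℕ} :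
    x ∈ A + Finset.range (r + 1) ↔ ∃ a ∈ A, a ≤ x ∧ x ≤ a + r := by
  rw [Finset.mem_add]
  constructor
  · rintro ⟨a, ha, i, hi, rfl⟩
    rw [Finset.mem_range] at hi
    exact ⟨a, ha, by omega, by omega⟩
  · rintro ⟨a, ha, h1, h2⟩
    exact ⟨a, ha, x - a, Finset.mem_range.mpr (by omega), by omega⟩

/-- if `A` is split by a far away point, its fattened set is larger -/
lemma card_fat_split (r : ℕ) (A : Finset ℕ) (y x₁ x₂ : ℕ) (hx₁ : x₁ ∈ A) (hx₂ : x₂ ∈ A)
    (h₁ : x₁ < y) (h₂ : y < x₂) (hy : ∀ x ∈ A, x + r < y ∨ y + r < x) :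
    A.card + 2 * r ≤ (A + Finset.range (r + 1)).card := by
  set A1 := A.filter (· < y) with hA1
  set A2 := A.filter (fun x => ¬ x < y) with hA2
  have hcard : A1.card + A2.card = A.card := Finset.card_filter_add_card_filter_not _
  have h1 := card_fat r A1 ⟨x₁, by simp [hA1, hx₁, h₁]⟩
  have h2 := card_fat r A2 ⟨x₂, by simp [hA2, hx₂]; omega⟩
  have hdisj : Disjoint (A1 + Finset.range (r + 1)) (A2 + Finset.range (r + 1)) := by
    rw [Finset.disjoint_left]
    intro z hz1 hz2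
    rw [mem_fat] at hz1 hz2
    obtain ⟨a, ha, h3, h4⟩ := hz1
    obtain ⟨b, hb, h5, h6⟩ := hz2
    rw [hA1, Finset.mem_filter] at ha
    rw [hA2, Finset.mem_filter] at hb
    have := hy a ha.1
    omega
  have hsub : (A1 + Finset.range (r + 1)) ∪ (A2 + Finset.range (r + 1)) ⊆
      A + Finset.range (r + 1) := by
    apply Finset.union_subset
    · exact Finset.add_subset_add_right (Finset.filter_subset _ _)
    · exact Finset.add_subset_add_right (Finset.filter_subset _ _)
  have h3 := Finset.card_le_card hsub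
  rw [Finset.card_union_of_disjoint hdisj] at h3
  omega

/-- interleaving sets need a lot of room -/
lemma no_interleave (r s : ℕ) (A B : Finset ℕ) (hA : ∀ x ∈ A, x ≤ s) (hB : ∀ x ∈ B, x ≤ s)
    (hAB : ∀ x ∈ A, ∀ y ∈ B, x + r < y ∨ y + r < x)
    (x₁ x₂ y₁ y₂ : ℕ) (hx₁ : x₁ ∈ A) (hx₂ : x₂ ∈ A) (hy₁ : y₁ ∈ B) (hy₂ : y₂ ∈ B)
    (h₁ : x₁ < y₁) (h₂ : y₁ < x₂) (h₃ : x₂ < y₂) :
    A.card + B.card + 4 * r ≤ s + r + 1 := by
  have h1 := card_fat_split r A y₁ x₁ x₂ hx₁ hx₂ h₁ h₂ (fun x hx => hAB x hx y₁ hy₁)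
  have h2 := card_fat_split r B x₂ y₁ y₂ hy₁ hy₂ h₂ h₃ (fun y hy => (hAB x₂ hx₂ y hy).symm)
  have hdisj : Disjoint (A + Finset.range (r + 1)) (B + Finset.range (r + 1)) := by
    rw [Finset.disjoint_left]
    intro z hz1 hz2
    rw [mem_fat] at hz1 hz2
    obtain ⟨a, ha, h3, h4⟩ := hz1
    obtain ⟨b, hb, h5, h6⟩ := hz2
    have := hAB a ha b hb
    omega
  have hsub : (A + Finset.range (r + 1)) ∪ (B + Finset.range (r + 1)) ⊆
      Finset.range (s + r + 1) := by
    intro z hz
    rw [Finset.mem_union, mem_fat, mem_fat] at hz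
    rw [Finset.mem_range]
    rcases hz with ⟨a, ha, _, h4⟩ | ⟨a, ha, _, h4⟩
    · have := hA a ha; omega
    · have := hB a ha; omega
  have h3 := Finset.card_le_card hsub
  rw [Finset.card_union_of_disjoint hdisj, Finset.card_range] at h3
  omega

lemma card_le_max_sub_min (A : Finset ℕ) (a b : ℕ) (h : ∀ x ∈ A, a ≤ x ∧ x ≤ b) (hab : a ≤ b) :
    A.card ≤ b - a + 1 := by
  have hsub : A ⊆ Finset.Icc a b := fun x hx => Finset.mem_Icc.mpr (h x hx)
  have := Finset.card_le_card hsub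
  rw [Nat.card_Icc] at this
  omega

/-- the five sets -/
def five (r n : ℕ) : Fin 5 → Finset ℕ
  | 0 => Finset.Icc 1 n
  | 1 => Finset.Icc (n + r - 1) (2 * n + r - 2)
  | 2 => Finset.Icc (n + r + 1) (2 * n + r)
  | 3 => {1, 2} ∪ Finset.Icc (2 * n + 2 * r + 1) (3 * n + 2 * r - 2)
  | 4 => Finset.Icc (2 * n + 2 * r - 1) (3 * n + 2 * r - 2)

/-- the class of a set with minimum `a` and maximum `b` -/
def cls (r n a b : ℕ) : Fin 5 :=
  if b ≤ 2 * n + r - 2 then (if r + 1 ≤ a then 1 else 0)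
  else if n + r ≤ a then (if b ≤ 3 * n + r - 3 then 2 else 4)
  else if r + 1 ≤ a ∧ b ≤ 3 * n + r - 3 then 1 else 3

lemma five_card (r n : ℕ) (hn : 4 ≤ n) (i : Fin 5) : (five r n i).card = n := by
  fin_cases i
  · simp [five]
  · simp only [five, Nat.card_Icc]; omega
  · simp only [five, Nat.card_Icc]; omega
  · have hdisj : Disjoint ({1, 2} : Finset ℕ)
        (Finset.Icc (2 * n + 2 * r + 1) (3 * n + 2 * r - 2)) := by
      rw [Finset.disjoint_left]
      intro x hx hx2
      simp only [Finset.mem_insert, Finset.mem_singleton] at hx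
      rw [Finset.mem_Icc] at hx2
      omega
    simp only [five]
    rw [Finset.card_union_of_disjoint hdisj, Nat.card_Icc]
    have : ({1, 2} : Finset ℕ).card = 2 := by decide
    rw [this]
    omega
  · simp only [five, Nat.card_Icc]; omega

lemma five_bounds (r n : ℕ) (hn : 4 ≤ n) (i : Fin 5) (x : ℕ) (hx : x ∈ five r n i) :
    1 ≤ x ∧ x ≤ 3 * n + 2 * r - 2 := by
  fin_cases i <;> simp [five] at hx <;> omega

/-- adjacency in the pentagon -/
def pent : Fin 5 → Fin 5 → Prop
  | 0, 4 => True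
  | 4, 0 => True
  | 0, 2 => True
  | 2, 0 => True
  | 2, 3 => True
  | 3, 2 => True
  | 1, 3 => True
  | 3, 1 => True
  | 1, 4 => True
  | 4, 1 => True
  | _, _ => False

lemma five_far (r n : ℕ) (hn : 4 ≤ n) (i j : Fin 5) (h : pent i j) (x y : ℕ)
    (hx : x ∈ five r n i) (hy : y ∈ five r n j) : x + r < y ∨ y + r < x := by
  fin_cases i <;> fin_cases j <;> simp [pent] at h <;> simp [five] at hx hy <;> omega

/-- two far apart `n`-sets in `[0, 3n+2r-2]` get adjacent classes; asymmetric version -/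
lemma cls_pent (r n : ℕ) (hn : 4 ≤ n) (hr : n ≤ r) (A B : Finset ℕ) (hAc : A.card = n)
    (hBc : B.card = n) (hA : ∀ x ∈ A, x ≤ 3 * n + 2 * r - 2) (hB : ∀ x ∈ B, x ≤ 3 * n + 2 * r - 2)
    (hAB : ∀ x ∈ A, ∀ y ∈ B, x + r < y ∨ y + r < x)
    (a b a' b' : ℕ) (ha : a ∈ A) (hb : b ∈ A) (ha' : a' ∈ B) (hb' : b' ∈ B)
    (hab : ∀ x ∈ A, a ≤ x ∧ x ≤ b) (hab' : ∀ x ∈ B, a' ≤ x ∧ x ≤ b') (hlt : a < a') :
    pent (cls r n a b) (cls r n a' b') ∧ pent (cls r n a' b') (cls r n a b) := by
  have h1 := card_le_max_sub_min A a b hab (hab a ha).2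
  have h2 := card_le_max_sub_min B a' b' hab' (hab' a' ha').2
  have h3 := hA b hb
  have h4 := hB b' hb'
  have e1 := hAB a ha a' ha'
  have e2 := hAB b hb b' hb'
  have e3 := hAB b hb a' ha'
  have e4 := (hab a ha).2
  have e5 := (hab' a' ha').2
  by_cases hc : b < a'
  · -- A is entirely to the left of B
    have hcl : cls r n a b = 0 ∨ (cls r n a b = 1 ∧ r + 1 ≤ a) := by
      unfold cls
      rw [if_pos (by omega)]
      split_ifs with h
      · exact Or.inr ⟨rfl, h⟩
      · exact Or.inl rfl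
    have hcl' : cls r n a' b' = 4 ∨ (cls r n a' b' = 2 ∧ b' ≤ 3 * n + r - 3) := by
      unfold cls
      rw [if_neg (by omega), if_pos (by omega)]
      split_ifs with h
      · exact Or.inr ⟨rfl, h⟩
      · exact Or.inl rfl
    rcases hcl with h | ⟨h, h'⟩ <;> rcases hcl' with k | ⟨k, k'⟩ <;> rw [h, k]
    · simp [pent]
    · simp [pent]
    · simp [pent]
    · exfalso; omega
  · by_cases hd : b' < b
    · -- B is nested inside A
      have hcl : cls r n a b = 3 := by
        unfold cls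
        rw [if_neg (by omega), if_neg (by omega), if_neg (by omega)]
      have hcl' : cls r n a' b' = 1 ∨ cls r n a' b' = 2 := by
        unfold cls
        split_ifs with k1 k2 k3 k4 k5
        · exact Or.inl rfl
        · exfalso; omega
        · exact Or.inr rfl
        · exfalso; omega
        · exact Or.inl rfl
        · exfalso; omega
      rcases hcl' with k | k <;> rw [hcl, k] <;> simp [pent]
    · exfalso
      have := no_interleave r (3 * n + 2 * r - 2) A B hA hB hAB a b a' b' ha hb ha' hb' hlt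
        (by omega) (by omega)
      omega

/-- from span at most `3n+2r-2` to span at most `3n+2r-3` -/
theorem improve (r n : ℕ) (hn : 4 ≤ n) (hr : n ≤ r) {V : Type} [Finite V] [Nonempty V]
    (G : SimpleGraph V) (S : V → Finset ℕ) (hS : IsTColoring r n G S)
    (hspan : span S ≤ 3 * n + 2 * r - 2) :
    ∃ S' : V → Finset ℕ, IsTColoring r n G S' ∧ span S' ≤ 3 * n + 2 * r - 3 := by
  classical
  obtain ⟨hcard, hpos, hadj⟩ := hS
  set U : Set ℕ := {a | ∃ v, a ∈ S v} with hU
  have hUfin : U.Finite := by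
    have : U = ⋃ v, (↑(S v) : Set ℕ) := by
      ext a; simp [hU]
    rw [this]
    exact Set.finite_iUnion fun v => (S v).finite_toSet
  have hne : ∀ v, (S v).Nonempty := fun v => by
    rw [← Finset.card_pos, hcard v]; omega
  set m := sInf U with hm
  have hlow : ∀ v, ∀ x ∈ S v, m ≤ x := fun v x hx => Nat.sInf_le ⟨v, hx⟩
  have hhigh : ∀ v, ∀ x ∈ S v, x ≤ m + (3 * n + 2 * r - 2) := by
    intro v x hx
    have h1 : x ≤ sSup U := le_csSup hUfin.bddAbove ⟨v, hx⟩
    have h2 : sSup U - sInf U ≤ 3 * n + 2 * r - 2 := hspan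
    have h3 := hlow v x hx
    omega
  -- normalised sets
  let A : V → Finset ℕ := fun v => (S v).image (fun x => x - m)
  have hAc : ∀ v, (A v).card = n := by
    intro v
    rw [Finset.card_image_of_injOn, hcard v]
    intro x hx y hy hxy
    have h1 := hlow v x hx
    have h2 := hlow v y hy
    simp only at hxy
    omega
  have hAb : ∀ v, ∀ x ∈ A v, x ≤ 3 * n + 2 * r - 2 := by
    intro v x hx
    obtain ⟨y, hy, rfl⟩ := Finset.mem_image.mp hx
    have := hhigh v y hy
    omega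
  have hAne : ∀ v, (A v).Nonempty := fun v => (hne v).image _
  have hfar : ∀ u v, G.Adj u v → ∀ x ∈ A u, ∀ y ∈ A v, x + r < y ∨ y + r < x := by
    intro u v huv x hx y hy
    obtain ⟨x', hx', rfl⟩ := Finset.mem_image.mp hx
    obtain ⟨y', hy', rfl⟩ := Finset.mem_image.mp hy
    have h1 := hadj u v huv x' hx' y' hy'
    rw [Finset.mem_range] at h1
    have h2 := hlow u x' hx'
    have h3 := hlow v y' hy'
    omega
  let lo : V → ℕ := fun v => (A v).min' (hAne v)
  let hi : V → ℕ := fun v => (A v).max' (hAne v)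
  have hlohi : ∀ v, ∀ x ∈ A v, lo v ≤ x ∧ x ≤ hi v := fun v x hx =>
    ⟨Finset.min'_le _ _ hx, Finset.le_max' _ _ hx⟩
  have hlo : ∀ v, lo v ∈ A v := fun v => Finset.min'_mem _ _
  have hhi : ∀ v, hi v ∈ A v := fun v => Finset.max'_mem _ _
  have hpent : ∀ u v, G.Adj u v → pent (cls r n (lo u) (hi u)) (cls r n (lo v) (hi v)) := by
    intro u v huv
    have h1 := hfar u v huv (lo u) (hlo u) (lo v) (hlo v)
    rcases Nat.lt_or_ge (lo u) (lo v) with h | h
    · exact (cls_pent r n hn hr (A u) (A v) (hAc u) (hAc v) (hAb u) (hAb v) (hfar u v huv)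
        _ _ _ _ (hlo u) (hhi u) (hlo v) (hhi v) (hlohi u) (hlohi v) h).1
    · exact (cls_pent r n hn hr (A v) (A u) (hAc v) (hAc u) (hAb v) (hAb u)
        (hfar v u huv.symm) _ _ _ _ (hlo v) (hhi v) (hlo u) (hhi u) (hlohi v) (hlohi u)
        (by omega)).2
  refine ⟨fun v => five r n (cls r n (lo v) (hi v)), ⟨fun v => five_card r n hn _,
    fun v a ha => (five_bounds r n hn _ a ha).1, ?_⟩, ?_⟩
  · intro u v huv a ha b hb
    have := five_far r n hn _ _ (hpent u v huv) a b ha hb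
    rw [Finset.mem_range]
    omega
  · obtain ⟨v₀⟩ := ‹Nonempty V›
    have hne' : {a | ∃ v, a ∈ five r n (cls r n (lo v) (hi v))}.Nonempty := by
      have : (five r n (cls r n (lo v₀) (hi v₀))).Nonempty := by
        rw [← Finset.card_pos, five_card r n hn]; omega
      obtain ⟨a, ha⟩ := this
      exact ⟨a, v₀, ha⟩
    have h1 : sSup {a | ∃ v, a ∈ five r n (cls r n (lo v) (hi v))} ≤ 3 * n + 2 * r - 2 := by
      apply csSup_le hne'
      rintro a ⟨v, ha⟩
      exact (five_bounds r n hn _ a ha).2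
    have h2 : 1 ≤ sInf {a | ∃ v, a ∈ five r n (cls r n (lo v) (hi v))} := by
      apply le_csInf hne'
      rintro a ⟨v, ha⟩
      exact (five_bounds r n hn _ a ha).1
    change sSup {a | ∃ v, a ∈ five r n (cls r n (lo v) (hi v))} -
      sInf {a | ∃ v, a ∈ five r n (cls r n (lo v) (hi v))} ≤ _
    omega

theorem sp_ne (r n : ℕ) (hn : 4 ≤ n) (hr : n ≤ r) {V : Type} [Finite V] [Nonempty V]
    (G : SimpleGraph V) : sp r n G ≠ 3 * n + 2 * r - 2 := by
  intro h
  have hne : {s | ∃ S : V → Finset ℕ, IsTColoring r n G S ∧ span S = s}.Nonempty := by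
    by_contra hcon
    rw [Set.not_nonempty_iff_eq_empty] at hcon
    rw [sp, hcon, Nat.sInf_empty] at h
    omega
  obtain ⟨S, hS, hspan⟩ := Nat.sInf_mem hne
  have h1 : span S ≤ 3 * n + 2 * r - 2 := by
    rw [hspan]; exact h.le
  obtain ⟨S', hS', hspan'⟩ := improve r n hn hr G S hS h1
  have h2 : sp r n G ≤ span S' := Nat.sInf_le ⟨S', hS', rfl⟩
  omega

end Pool.Agent.Work.MP_56aac4_co
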